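import Pool.Agent.Y859.SF.Stm

set_option autoImplicit false

/-! # The square part of a block -/

namespace Pool.Agent.Y309.SF

open Finset Pool.Agent.Y859.SF

theorem t_SQP : S_SQP := by
  intro A s f β hs hf hblk
  choose a x hx ha using Nat.sq_mul_squarefree
  have hjpos : ∀ j ∈ Ioc A (A + s), j ≠ 0 := by
    intro j hj
    rw [mem_Ioc] at hj
    omega
  have hxpos : ∀ j ∈ Ioc A (A + s), x j ≠ 0 := by
    intro j hj h0
    have h1 := hx j
    rw [h0] at h1
    exact hjpos j hj (by rw [← h1]; simp)
  have hapos : ∀ j, a j ≠ 0 := fun j => (ha j).ne_zero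
  have hblk0 : blk A (A + s) ≠ 0 := Finset.prod_ne_zero_iff.2 hjpos
  have hβ0 : β ≠ 0 := by
    rintro rfl
    exact hblk0 (by rw [hblk]; simp)
  have hf0 : f ≠ 0 := hf.ne_zero
  set X := ∏ j ∈ Ioc A (A + s), x j with hX
  have hX0 : X ≠ 0 := Finset.prod_ne_zero_iff.2 hxpos
  have hfac0 : s.factorial ^ s ≠ 0 := pow_ne_zero _ (Nat.factorial_ne_zero s)
  refine ⟨x, fun j hj => ⟨Nat.one_le_iff_ne_zero.2 (hxpos j hj), ⟨a j, (hx j).symm⟩⟩, ?_⟩
  have key : ∀ p : ℕ, p.Prime → β.factorization p ≤ (X * s.factorial ^ s).factorization p := by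
    intro p hp
    -- the number of `j` such that `p` divides the squarefree part
    have h1 : (blk A (A + s)).factorization p =
        ∑ j ∈ Ioc A (A + s), (2 * (x j).factorization p + (a j).factorization p) := by
      have h2 : (blk A (A + s)).factorization = ∑ j ∈ Ioc A (A + s), j.factorization :=
        Nat.factorization_prod hjpos
      rw [h2, Finsupp.finset_sum_apply]
      refine Finset.sum_congr rfl fun j hj => ?_
      conv_lhs => rw [← hx j]
      rw [Nat.factorization_mul (pow_ne_zero _ (hxpos j hj)) (hapos j), Nat.factorization_pow]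
      simp
    have h3 : X.factorization p = ∑ j ∈ Ioc A (A + s), (x j).factorization p := by
      have h4 : X.factorization = ∑ j ∈ Ioc A (A + s), (x j).factorization :=
        Nat.factorization_prod hxpos
      rw [h4, Finsupp.finset_sum_apply]
    have h5 : (blk A (A + s)).factorization p = f.factorization p + 2 * β.factorization p := by
      rw [hblk, Nat.factorization_mul hf0 (pow_ne_zero _ hβ0), Nat.factorization_pow]
      simp
    rw [Finset.sum_add_distrib, ← Finset.mul_sum, ← h3, h5] at h1
    have h6 : (X * s.factorial ^ s).factorization p =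
        X.factorization p + s * s.factorial.factorization p := by
      rw [Nat.factorization_mul hX0 hfac0, Nat.factorization_pow]
      simp
    rw [h6]
    have hle1 : ∀ j, (a j).factorization p ≤ if p ∣ j then 1 else 0 := by
      intro j
      split_ifs with hd
      · exact (ha j).natFactorization_le_one p
      · rw [Nat.factorization_eq_zero_of_not_dvd]
        intro hd2
        exact hd (by rw [← hx j]; exact hd2.mul_left _)
    have hr : ∑ j ∈ Ioc A (A + s), (a j).factorization p ≤
        ((Ioc A (A + s)).filter (fun j => p ∣ j)).card := by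
      rw [Finset.card_filter]
      exact Finset.sum_le_sum fun j _ => hle1 j
    rcases lt_or_ge p s with hps | hps
    · have h7 : ((Ioc A (A + s)).filter (fun j => p ∣ j)).card ≤ s := by
        refine (Finset.card_filter_le _ _).trans ?_
        rw [Nat.card_Ioc]
        omega
      have h8 : 1 ≤ s.factorial.factorization p :=
        (hp.dvd_iff_one_le_factorization (Nat.factorial_ne_zero s)).1
          (hp.dvd_factorial.2 hps.le)
      have h9 : s ≤ s * s.factorial.factorization p := Nat.le_mul_of_pos_right s h8
      omega
    · have h7 : ((Ioc A (A + s)).filter (fun j => p ∣ j)).card ≤ 1 := by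
        rw [Finset.card_le_one]
        have aux : ∀ i j : ℕ, i ∈ (Ioc A (A + s)).filter (fun j => p ∣ j) →
            j ∈ (Ioc A (A + s)).filter (fun j => p ∣ j) → ¬ i < j := by
          intro i j hi hj hij
          rw [mem_filter, mem_Ioc] at hi hj
          have h8 : p ∣ j - i := Nat.dvd_sub hj.2 hi.2
          have h9 := Nat.le_of_dvd (by omega) h8
          omega
        intro i hi j hj
        have h8 := aux i j hi hj
        have h9 := aux j i hj hi
        omega
      omega
  have hdvd : β ∣ X * s.factorial ^ s := by
    rw [← Nat.factorization_le_iff_dvd hβ0 (mul_ne_zero hX0 hfac0)]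
    intro p
    by_cases hp : p.Prime
    · exact key p hp
    · rw [Nat.factorization_eq_zero_of_not_prime _ hp]
      exact Nat.zero_le _
  have hle : β ≤ X * s.factorial ^ s := Nat.le_of_dvd
    (Nat.pos_of_ne_zero (mul_ne_zero hX0 hfac0)) hdvd
  refine hle.trans (Nat.mul_le_mul_left _ ?_)
  calc s.factorial ^ s ≤ (s ^ s) ^ s := Nat.pow_le_pow_left (Nat.factorial_le_pow s) s
    _ = s ^ (s ^ 2) := by rw [← pow_mul, sq]

end Pool.Agent.Y309.SF
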